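import Pool.Agent.Helper24.AB.PP.Goals
import Pool.Agent.Helper24.AB.NT.Goals

/-!
# Packet AB-POTF (MP_1ef41b_an): assembly of the potential
-/

open MeasureTheory Set Filter Topology
open scoped ContDiff

noncomputable section

namespace Pool.Agent.Helper23.AB

open Pool.Agent.Helper24.AB

theorem dS_smooth {f : ℂ → ℝ} (hf : ContDiff ℝ ∞ f) : ContDiff ℝ ∞ (dS f) := by
  have h1 : ContDiff ℝ ∞ (fderiv ℝ f) := hf.fderiv_right (by simp)
  exact h1.clm_apply contDiff_const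

theorem dT_smooth {f : ℂ → ℝ} (hf : ContDiff ℝ ∞ f) : ContDiff ℝ ∞ (dT f) := by
  have h1 : ContDiff ℝ ∞ (fderiv ℝ f) := hf.fderiv_right (by simp)
  exact h1.clm_apply contDiff_const

theorem lapC_sum {ι : Type*} (s : Finset ι) (f : ι → ℂ → ℝ) (hf : ∀ i ∈ s, ContDiff ℝ ∞ (f i))
    (w : ℂ) : lapC (fun w => ∑ i ∈ s, f i w) w = ∑ i ∈ s, lapC (f i) w := by
  have hS : ∀ g : ι → ℂ → ℝ, (∀ i ∈ s, ContDiff ℝ ∞ (g i)) →
      dS (fun w => ∑ i ∈ s, g i w) = fun w => ∑ i ∈ s, dS (g i) w := by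
    intro g hg
    funext z
    unfold dS
    rw [fderiv_fun_sum fun i hi => (hg i hi).differentiable (by simp) z]
    simp
  have hT : ∀ g : ι → ℂ → ℝ, (∀ i ∈ s, ContDiff ℝ ∞ (g i)) →
      dT (fun w => ∑ i ∈ s, g i w) = fun w => ∑ i ∈ s, dT (g i) w := by
    intro g hg
    funext z
    unfold dT
    rw [fderiv_fun_sum fun i hi => (hg i hi).differentiable (by simp) z]
    simp
  unfold lapC
  rw [hS f hf, hT f hf, hS _ (fun i hi => dS_smooth (hf i hi)),
    hT _ (fun i hi => dT_smooth (hf i hi)), Finset.sum_add_distrib]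

theorem potf (hBD : S_BD) (hSEP : S_SEP) (hPHOLE : S_PHOLE) (hCAP : S_CAP) (hSER : S_SERIES)
    (hNRX : S_NRX) : S_POTF := by
  intro a δ₀ ρ₀ ha ha2 hδ₀ hρ₀
  obtain ⟨r, hr, hcap⟩ := hCAP a ρ₀ ha ha2 hρ₀
  set B0 : BlockData := BD a ρ₀ 0 with hB0
  have bd := hBD a ρ₀ 0 ha ha2 hρ₀
  have bρ : ∀ j, 0 < rhoj a ρ₀ j ∧ rhoj a ρ₀ j ≤ 1 / 4 := fun j => by
    obtain ⟨-, -, -, -, h5, -, h7, -⟩ := bd j
    exact ⟨h5, h7⟩
  have bA : ∀ j, B0.a2 j ≤ 39 / 40 * a := fun j => (bd j).2.2.2.2.2.2.2.2.2.1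
  have bN : ∀ j, (Nsj a ρ₀ j : ℝ) * rhoj a ρ₀ j = 2 * B0.a2 j := fun j =>
    (bd j).2.2.2.2.2.2.2.2.2.2.1
  -- the tile of a centre is in the strip
  have tile : ∀ j i i', i < Nsj a ρ₀ j → ∀ w : ℂ,
      |(w - B0.ctr j i i').re| ≤ rhoj a ρ₀ j / 2 → |w.re| ≤ 39 / 40 * a := by
    intro j i i' hi w hw
    have e : (B0.ctr j i i').re = -B0.a2 j + (i + 1 / 2) * rhoj a ρ₀ j := rfl
    rw [Complex.sub_re, e] at hw
    have h1 := abs_le.1 hw
    have h2 : ((i : ℝ) + 1) * rhoj a ρ₀ j ≤ 2 * B0.a2 j := by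
      rw [← bN j]
      refine mul_le_mul_of_nonneg_right ?_ (bρ j).1.le
      exact_mod_cast hi
    have h3 : 0 ≤ (i : ℝ) * rhoj a ρ₀ j := mul_nonneg (Nat.cast_nonneg _) (bρ j).1.le
    have h4 := bA j
    rw [abs_le]
    constructor
    · linarith [h1.1]
    · linarith [h1.2]
  have ctr_re : ∀ j i i', i < Nsj a ρ₀ j → |(B0.ctr j i i').re| ≤ 1 / 2 := by
    intro j i i' hi
    have := tile j i i' hi (B0.ctr j i i') (by
      rw [sub_self, Complex.zero_re, abs_zero]; linarith [(bρ j).1])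
    linarith
  have hex : ∀ j i i', ∃ P : ℂ → ℝ, |(B0.ctr j i i').re| ≤ 1 / 2 →
      ContDiff ℝ ∞ P ∧ (∀ w, P (w + 2 * Real.pi * Complex.I) = lam * P w) ∧
      (∀ w : ℂ, 1 ≤ |w.re| → P w = 0) ∧ (∀ w : ℂ, |w.re| < 3 / 4 → 0 ≤ lapC P w) ∧
      (∀ w : ℂ, |w.re| < 3 / 4 → (∀ k : ℤ, r j ≤ ‖w - B0.ctr j i i' - 2 * Real.pi * Complex.I * k‖) →
        lapC P w = 0) ∧
      ∀ R, r j ≤ R → R ≤ 1 / 4 → ∫ w in Metric.ball (B0.ctr j i i') R, lapC P w = 2 * Real.pi := by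
    intro j i i'
    by_cases h : |(B0.ctr j i i').re| ≤ 1 / 2
    · obtain ⟨P, hP⟩ := hPHOLE (r j) (hr j).1
        (by have := (hr j).2; have := (bρ j).2; linarith [(bρ j).1]) (B0.ctr j i i') h
      exact ⟨P, fun _ => hP⟩
    · exact ⟨0, fun h' => absurd h' h⟩
  choose P hP using hex
  have hP' : ∀ j, ∀ i ∈ Finset.range (Nsj a ρ₀ j), ∀ i',
      ContDiff ℝ ∞ (P j i i') ∧ (∀ w, P j i i' (w + 2 * Real.pi * Complex.I) = lam * P j i i' w) ∧
      (∀ w : ℂ, 1 ≤ |w.re| → P j i i' w = 0) ∧ (∀ w : ℂ, |w.re| < 3 / 4 → 0 ≤ lapC (P j i i') w) ∧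
      (∀ w : ℂ, |w.re| < 3 / 4 → (∀ k : ℤ, r j ≤ ‖w - B0.ctr j i i' - 2 * Real.pi * Complex.I * k‖) →
        lapC (P j i i') w = 0) ∧
      ∀ R, r j ≤ R → R ≤ 1 / 4 →
        ∫ w in Metric.ball (B0.ctr j i i') R, lapC (P j i i') w = 2 * Real.pi :=
    fun j i hi i' => hP j i i' (ctr_re j i i' (Finset.mem_range.1 hi))
  set Q : ℕ → ℂ → ℝ := fun j w => ∑ i ∈ Finset.range (Nsj a ρ₀ j),
    ∑ i' ∈ Finset.range (Ntj a ρ₀ j), P j i i' w with hQ
  have Qs : ∀ j, ContDiff ℝ ∞ (Q j) := fun j =>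
    ContDiff.sum fun i hi => ContDiff.sum fun i' _ => (hP' j i hi i').1
  have Qp : ∀ j w, Q j (w + 2 * Real.pi * Complex.I) = lam * Q j w := by
    intro j w
    simp only [hQ]
    rw [Finset.mul_sum]
    refine Finset.sum_congr rfl fun i hi => ?_
    rw [Finset.mul_sum]
    exact Finset.sum_congr rfl fun i' _ => (hP' j i hi i').2.1 w
  have Q0 : ∀ j (w : ℂ), 1 ≤ |w.re| → Q j w = 0 := by
    intro j w hw
    exact Finset.sum_eq_zero fun i hi => Finset.sum_eq_zero fun i' _ => (hP' j i hi i').2.2.1 w hw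
  have Ql : ∀ j w, lapC (Q j) w = ∑ i ∈ Finset.range (Nsj a ρ₀ j),
      ∑ i' ∈ Finset.range (Ntj a ρ₀ j), lapC (P j i i') w := by
    intro j w
    rw [hQ]
    simp only
    rw [lapC_sum _ _ (fun i hi => ContDiff.sum fun i' _ => (hP' j i hi i').1)]
    exact Finset.sum_congr rfl fun i hi => lapC_sum _ _ (fun i' _ => (hP' j i hi i').1) w
  obtain ⟨M, hM, hser⟩ := hSER δ₀ Q hδ₀ Qs Qp Q0
  have hε : ∀ j, ∃ ε : ℝ, 0 < ε ∧ ε < M j ∧ NR ε := fun j => hNRX (M j) (hM j)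
  choose ε hε0 hεM hεNR using hε
  obtain ⟨ps, psum, plsum, plap, pbd⟩ := hser ε fun j => ⟨hε0 j, hεM j⟩
  -- vanishing of the Laplacian
  have lap0 : ∀ w : ℂ, |w.re| < 3 / 4 → (∀ j i i' (k : ℤ), i < Nsj a ρ₀ j → i' < Ntj a ρ₀ j →
      r j ≤ ‖w - B0.ctr j i i' - 2 * Real.pi * Complex.I * k‖) →
      lapC (fun w => ∑' j, ε j * Q j w) w = 0 := by
    intro w hw h
    rw [plap w]
    have : ∀ j, ε j * lapC (Q j) w = 0 := fun j => by
      rw [Ql j w]
      have : (∑ i ∈ Finset.range (Nsj a ρ₀ j), ∑ i' ∈ Finset.range (Ntj a ρ₀ j),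
          lapC (P j i i') w) = 0 :=
        Finset.sum_eq_zero fun i hi => Finset.sum_eq_zero fun i' hi' =>
          (hP' j i hi i').2.2.2.2.1 w hw fun k => h j i i' k (Finset.mem_range.1 hi)
            (Finset.mem_range.1 hi')
      rw [this, mul_zero]
    simp only [this, tsum_zero]
  have strip34 : ∀ w : ℂ, w ∈ strip (3 * a / 2) → |w.re| < 3 / 4 := by
    intro w hw
    have : |w.re| < 3 * a / 2 := hw
    linarith
  refine ⟨fun w => ∑' j, ε j * Q j w, BD a ρ₀ ε, ?_⟩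
  have bdε := hBD a ρ₀ ε ha ha2 hρ₀
  refine
    { smooth := ps.contDiffOn
      p1 := ?_
      p2 := ?_
      p3 := ?_
      p4 := ?_
      tau_pos := fun j => (bdε j).1
      b_pos := fun j => (bdε j).2.1
      tau_b := fun j => (bdε j).2.2.2.1
      rho_pos := fun j => (bdε j).2.2.2.2.1
      rho_le := fun j => (bdε j).2.2.2.2.2.1
      ratio := fun j => (bdε j).2.2.2.2.2.2.2.1
      a2_ge := fun j => (bdε j).2.2.2.2.2.2.2.2.1
      a2_le := fun j => (bdε j).2.2.2.2.2.2.2.2.2.1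
      tile_s := fun j => (bdε j).2.2.2.2.2.2.2.2.2.2.1
      tile_t := fun j => (bdε j).2.2.2.2.2.2.2.2.2.2.2
      eps_pos := hε0
      eps_NR := hεNR
      off := ?_
      flux := ?_ }
  · intro w
    simp only [Qp]
    rw [← tsum_mul_left]
    exact tsum_congr fun j => by ring
  · intro w hw
    rw [plap w]
    refine tsum_nonneg fun j => mul_nonneg (hε0 j).le ?_
    rw [Ql j w]
    exact Finset.sum_nonneg fun i hi => Finset.sum_nonneg fun i' _ =>
      (hP' j i hi i').2.2.2.1 w (strip34 w hw)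
  · intro w _
    exact ⟨(pbd w).1, (pbd w).2.1, (le_abs_self _).trans (pbd w).2.2⟩
  · refine hcap _ fun w hw h => lap0 w (strip34 w hw) fun j i i' k hi hi' => (h j i i' k hi hi').le
  · intro j i i' hi hi' w hre him hfar
    have hw34 : |w.re| < 3 / 4 := by
      have := tile j i i' hi w hre
      linarith
    refine lap0 w hw34 fun j' l l' k hl hl' => ?_
    by_cases hc : j' = j ∧ l = i ∧ l' = i' ∧ k = 0
    · obtain ⟨rfl, rfl, rfl, rfl⟩ := hc
      have h1 : rhoj a ρ₀ j' / 4 ≤ ‖w - B0.ctr j' l l'‖ := hfar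
      simp only [Int.cast_zero, mul_zero, sub_zero]
      exact ((hr j').2.le).trans h1
    · have h1 : rhoj a ρ₀ j' / 2 ≤ ‖w - B0.ctr j' l l' - 2 * Real.pi * Complex.I * k‖ :=
        hSEP a ρ₀ 0 ha ha2 hρ₀ j i i' hi hi' w hre him j' l l' k hl hl' hc
      have h2 := (hr j').2
      have h3 := (bρ j').1
      linarith
  · intro j i i' hi hi'
    have hctr : (BD a ρ₀ ε).ctr j i i' = B0.ctr j i i' := rfl
    have hrho : (BD a ρ₀ ε).rho j = rhoj a ρ₀ j := rfl
    have heps : (BD a ρ₀ ε).eps j = ε j := rfl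
    rw [hctr, hrho, heps]
    have hpt : ∀ w ∈ Metric.ball (B0.ctr j i i') (rhoj a ρ₀ j / 4),
        lapC (fun w => ∑' j, ε j * Q j w) w = ε j * lapC (P j i i') w := by
      intro w hw
      rw [Metric.mem_ball, dist_eq_norm] at hw
      have hre : |(w - B0.ctr j i i').re| ≤ rhoj a ρ₀ j / 2 :=
        (Complex.abs_re_le_norm _).trans (by linarith [(bρ j).1])
      have him : |(w - B0.ctr j i i').im| ≤ rhoj a ρ₀ j / 2 :=
        (Complex.abs_im_le_norm _).trans (by linarith [(bρ j).1])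
      have hw34 : |w.re| < 3 / 4 := by
        have := tile j i i' hi w hre
        linarith
      -- the other terms vanish
      have hz : ∀ j' l l', l ∈ Finset.range (Nsj a ρ₀ j') → l' ∈ Finset.range (Ntj a ρ₀ j') →
          ¬ (j' = j ∧ l = i ∧ l' = i') → lapC (P j' l l') w = 0 := by
        intro j' l l' hl hl' hne
        refine (hP' j' l hl l').2.2.2.2.1 w hw34 fun k => ?_
        have h1 : rhoj a ρ₀ j' / 2 ≤ ‖w - B0.ctr j' l l' - 2 * Real.pi * Complex.I * k‖ :=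
          hSEP a ρ₀ 0 ha ha2 hρ₀ j i i' hi hi' w hre him j' l l' k (Finset.mem_range.1 hl)
            (Finset.mem_range.1 hl') fun h => hne ⟨h.1, h.2.1, h.2.2.1⟩
        have h2 := (hr j').2
        have h3 := (bρ j').1
        linarith
      rw [plap w, tsum_eq_single j]
      · rw [Ql j w, Finset.sum_eq_single i, Finset.sum_eq_single i']
        · intro l' hl' hne
          exact hz j i l' (Finset.mem_range.2 hi) hl' fun h => hne h.2.2
        · intro h
          exact absurd (Finset.mem_range.2 hi') h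
        · intro l hl hne
          exact Finset.sum_eq_zero fun l' hl' => hz j l l' hl hl' fun h => hne h.2.1
        · intro h
          exact absurd (Finset.mem_range.2 hi) h
      · intro j' hne
        have : lapC (Q j') w = 0 := by
          rw [Ql j' w]
          exact Finset.sum_eq_zero fun l hl => Finset.sum_eq_zero fun l' hl' =>
            hz j' l l' hl hl' fun h => hne h.1
        rw [this, mul_zero]
    rw [setIntegral_congr_fun Metric.isOpen_ball.measurableSet hpt, integral_const_mul,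
      (hP' j i (Finset.mem_range.2 hi) i').2.2.2.2.2 (rhoj a ρ₀ j / 4) (hr j).2.le
        (by linarith [(bρ j).2, (bρ j).1])]
    ring

end Pool.Agent.Helper23.AB
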