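import Pool.Agent.Helper24.AB.PP.Goals

/-!
# Packet AB-SEP (MP_1ef41b_an): the holes are well separated
-/

open MeasureTheory Set Filter Topology
open scoped ContDiff

noncomputable section

namespace Pool.Agent.Helper23.AB

open Pool.Agent.Helper24.AB

theorem sep (hBD : S_BD) : S_SEP := by
  intro a ρ₀ eps ha ha2 hρ₀ j i i' hi hi' w hre him j' l l' k hl hl' hne
  set B : BlockData := BD a ρ₀ eps with hB
  have bd := hBD a ρ₀ eps ha ha2 hρ₀
  have ρp : ∀ j, 0 < B.rho j := fun j => (bd j).2.2.2.2.1
  have bb : ∀ j, B.b j ≤ (1 / 2) ^ (j + 1) := fun j => (bd j).2.2.1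
  have bt : ∀ j, (B.Nt j : ℝ) * B.rho j = B.b j := fun j => (bd j).2.2.2.2.2.2.2.2.2.2.2
  have tau : ∀ j, B.tau j = (1 / 2) ^ j := fun j => rfl
  have cre : ∀ j i i', (B.ctr j i i').re = -B.a2 j + (i + 1 / 2) * B.rho j := fun _ _ _ => rfl
  have cim : ∀ j i i', (B.ctr j i i').im = B.tau j + (i' + 1 / 2) * B.rho j := fun _ _ _ => rfl
  -- the imaginary parts of the centres
  have imlo : ∀ j i i', B.tau j + B.rho j / 2 ≤ (B.ctr j i i').im := fun j i i' => by
    rw [cim]
    have : 0 ≤ (i' : ℝ) * B.rho j := mul_nonneg (Nat.cast_nonneg _) (ρp j).le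
    linarith
  have imhi : ∀ j i i', i' < B.Nt j → (B.ctr j i i').im ≤ B.tau j + B.b j - B.rho j / 2 := by
    intro j i i' h
    rw [cim, ← bt j]
    have : ((i' : ℝ) + 1) * B.rho j ≤ (B.Nt j : ℝ) * B.rho j :=
      mul_le_mul_of_nonneg_right (by exact_mod_cast h) (ρp j).le
    linarith
  have h1 := abs_le.1 hre
  have h2 := abs_le.1 him
  rw [Complex.sub_re] at h1
  rw [Complex.sub_im] at h2
  have wlo : B.tau j ≤ w.im := by linarith [h2.1, imlo j i i']
  have whi : w.im ≤ B.tau j + B.b j := by linarith [h2.2, imhi j i i' hi']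
  -- real and imaginary parts of the difference
  set z : ℂ := w - B.ctr j' l l' - 2 * Real.pi * Complex.I * k with hz
  have zre : z.re = w.re - (B.ctr j' l l').re := by
    rw [hz]; simp
  have zim : z.im = w.im - (B.ctr j' l l').im - 2 * Real.pi * k := by
    rw [hz]; simp
  have viaIm : B.rho j' / 2 ≤ |z.im| → B.rho j' / 2 ≤ ‖z‖ := fun h =>
    h.trans (Complex.abs_im_le_norm z)
  have viaRe : B.rho j' / 2 ≤ |z.re| → B.rho j' / 2 ≤ ‖z‖ := fun h =>
    h.trans (Complex.abs_re_le_norm z)
  have half : ∀ j : ℕ, (1 / 2 : ℝ) ^ (j + 1) = (1 / 2) ^ j / 2 := fun j => by rw [pow_succ]; ring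
  have le1 : ∀ j : ℕ, (1 / 2 : ℝ) ^ j ≤ 1 := fun j => pow_le_one₀ (by norm_num) (by norm_num)
  have pos : ∀ j : ℕ, (0 : ℝ) < (1 / 2) ^ j := fun j => by positivity
  have mono : ∀ m n : ℕ, m < n → (1 / 2 : ℝ) ^ n ≤ (1 / 2) ^ m / 2 := fun m n h => by
    rw [← half]
    exact pow_le_pow_of_le_one (by norm_num) (by norm_num) h
  have pi3 := Real.pi_gt_three
  have bj := bb j
  have bj' := bb j'
  rw [half] at bj bj'
  have tj := tau j
  have tj' := tau j'
  have l1 := le1 j
  have l1' := le1 j'
  have p1 := pos j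
  have p1' := pos j'
  have ilo := imlo j' l l'
  have ihi := imhi j' l l' hl'
  by_cases hk : k = 0
  · subst hk
    rw [Int.cast_zero, mul_zero, sub_zero] at zim
    rcases lt_trichotomy j' j with hj | hj | hj
    · -- `j' < j`
      apply viaIm
      have m := mono j' j hj
      rw [zim, abs_of_nonpos (by linarith [ρp j'])]
      linarith [ρp j']
    · subst hj
      by_cases hll : l = i
      · have hll' : l' ≠ i' := fun h => hne ⟨rfl, hll, h, rfl⟩
        apply viaIm
        rw [zim]
        have e1 := cim j' i i'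
        have e2 := cim j' l l'
        rcases Nat.lt_or_gt_of_ne hll' with h | h
        · have : ((l' : ℝ) + 1) * B.rho j' ≤ (i' : ℝ) * B.rho j' :=
            mul_le_mul_of_nonneg_right (by exact_mod_cast h) (ρp j').le
          refine le_trans ?_ (le_abs_self _)
          linarith [h2.1]
        · have : ((i' : ℝ) + 1) * B.rho j' ≤ (l' : ℝ) * B.rho j' :=
            mul_le_mul_of_nonneg_right (by exact_mod_cast h) (ρp j').le
          refine le_trans ?_ (neg_le_abs _)
          linarith [h2.2]
      · apply viaRe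
        rw [zre]
        have e1 := cre j' i i'
        have e2 := cre j' l l'
        rcases Nat.lt_or_gt_of_ne hll with h | h
        · have : ((l : ℝ) + 1) * B.rho j' ≤ (i : ℝ) * B.rho j' :=
            mul_le_mul_of_nonneg_right (by exact_mod_cast h) (ρp j').le
          refine le_trans ?_ (le_abs_self _)
          linarith [h1.1]
        · have : ((i : ℝ) + 1) * B.rho j' ≤ (l : ℝ) * B.rho j' :=
            mul_le_mul_of_nonneg_right (by exact_mod_cast h) (ρp j').le
          refine le_trans ?_ (neg_le_abs _)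
          linarith [h1.2]
    · -- `j < j'`
      apply viaIm
      have m := mono j j' hj
      rw [zim]
      refine le_trans ?_ (le_abs_self _)
      linarith [ρp j']
  · apply viaIm
    rw [zim]
    rcases lt_or_gt_of_ne hk with h | h
    · have h3 : (k : ℝ) ≤ -1 := by exact_mod_cast Int.le_sub_one_of_lt h
      have h4 : 2 * Real.pi * k ≤ 2 * Real.pi * (-1) := mul_le_mul_of_nonneg_left h3 (by linarith)
      refine le_trans ?_ (le_abs_self _)
      linarith
    · have h3 : (1 : ℝ) ≤ k := by exact_mod_cast h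
      have h4 : 2 * Real.pi * 1 ≤ 2 * Real.pi * k := mul_le_mul_of_nonneg_left h3 (by linarith)
      refine le_trans ?_ (neg_le_abs _)
      linarith

end Pool.Agent.Helper23.AB
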