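import Pool.Agent.Helper24.AB.AN.Goals

/-!
# Packet AB-WB (MP_1ef41b_an): weighted estimate for bounded weights
-/

open MeasureTheory Set Filter Topology
open scoped ContDiff

noncomputable section

namespace Pool.Agent.Helper23.AB

open Pool.Agent.Helper24.AB

section norms

variable {α : Type*} [MeasurableSpace α] {μ : Measure α}

/-- the `L²` norm as a real number -/
def n2 (μ : Measure α) (f : α → ℂ) : ℝ := (eLpNorm f 2 μ).toReal

theorem n2_nonneg (f : α → ℂ) : 0 ≤ n2 μ f := ENNReal.toReal_nonneg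

theorem n2_of {f : α → ℂ} (hf : MemLp f 2 μ) : eLpNorm f 2 μ = ENNReal.ofReal (n2 μ f) := by
  unfold n2; rw [ENNReal.ofReal_toReal hf.2.ne]

theorem n2_sq {f : α → ℂ} (hf : MemLp f 2 μ) : n2 μ f ^ 2 = ∫ w, ‖f w‖ ^ 2 ∂μ := by
  have h := hf.eLpNorm_eq_integral_rpow_norm (by norm_num) (by norm_num)
  have h0 : 0 ≤ ∫ w, ‖f w‖ ^ 2 ∂μ := integral_nonneg fun _ => by positivity
  unfold n2
  rw [h]
  have e : (∫ a, ‖f a‖ ^ (2 : ENNReal).toReal ∂μ) = ∫ w, ‖f w‖ ^ 2 ∂μ := by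
    congr 1; funext w
    rw [show (2 : ENNReal).toReal = ((2 : ℕ) : ℝ) by norm_num, Real.rpow_natCast]
  rw [e, ENNReal.toReal_ofReal (by positivity)]
  rw [show ((2 : ENNReal).toReal)⁻¹ = (1 / 2 : ℝ) by norm_num, ← Real.sqrt_eq_rpow, Real.sq_sqrt h0]

theorem n2_add {f g : α → ℂ} (hf : MemLp f 2 μ) (hg : MemLp g 2 μ) :
    n2 μ (fun w => f w + g w) ≤ n2 μ f + n2 μ g := by
  unfold n2
  rw [← ENNReal.toReal_add hf.2.ne hg.2.ne]
  exact ENNReal.toReal_mono (ENNReal.add_ne_top.2 ⟨hf.2.ne, hg.2.ne⟩)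
    (eLpNorm_add_le hf.1 hg.1 (by norm_num))

theorem n2_sub {f g : α → ℂ} (hf : MemLp f 2 μ) (hg : MemLp g 2 μ) :
    n2 μ (fun w => f w - g w) ≤ n2 μ f + n2 μ g := by
  unfold n2
  rw [← ENNReal.toReal_add hf.2.ne hg.2.ne]
  exact ENNReal.toReal_mono (ENNReal.add_ne_top.2 ⟨hf.2.ne, hg.2.ne⟩)
    (eLpNorm_sub_le hf.1 hg.1 (by norm_num))

theorem n2_le {f g : α → ℂ} {c : ℝ} (hc : 0 ≤ c) (hg : MemLp g 2 μ)
    (h : ∀ w, ‖f w‖ ≤ c * ‖g w‖) : n2 μ f ≤ c * n2 μ g := by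
  have h1 := eLpNorm_le_mul_eLpNorm_of_ae_le_mul (Eventually.of_forall h) (2 : ENNReal) (μ := μ)
  unfold n2
  have h2 := ENNReal.toReal_mono (ENNReal.mul_ne_top ENNReal.ofReal_ne_top hg.2.ne) h1
  rwa [ENNReal.toReal_mul, ENNReal.toReal_ofReal hc] at h2

theorem n2_congr {f g : α → ℂ} (h : ∀ w, ‖f w‖ = ‖g w‖) : n2 μ f = n2 μ g := by
  unfold n2
  rw [eLpNorm_congr_norm_ae (Eventually.of_forall h)]

/-- Cauchy–Schwarz -/
theorem n2_cs {f g : α → ℂ} (hf : MemLp f 2 μ) (hg : MemLp g 2 μ) :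
    ∫ w, ‖f w‖ * ‖g w‖ ∂μ ≤ n2 μ f * n2 μ g := by
  have hab : Integrable (fun w => ‖f w‖ * ‖g w‖) μ := hf.norm.integrable_mul hg.norm
  have ha : Integrable (fun w => ‖f w‖ ^ 2) μ := hf.norm.integrable_sq
  have hb : Integrable (fun w => ‖g w‖ ^ 2) μ := hg.norm.integrable_sq
  have h : ∀ t : ℝ, 0 ≤ (∫ y, ‖g y‖ ^ 2 ∂μ) * (t * t) + (2 * ∫ y, ‖f y‖ * ‖g y‖ ∂μ) * t
      + ∫ y, ‖f y‖ ^ 2 ∂μ := by
    intro t
    have h1 : ∫ y, (‖f y‖ + t * ‖g y‖) ^ 2 ∂μ =
        (∫ y, ‖g y‖ ^ 2 ∂μ) * (t * t) + (2 * ∫ y, ‖f y‖ * ‖g y‖ ∂μ) * t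
          + ∫ y, ‖f y‖ ^ 2 ∂μ := by
      have h2 : (fun y => (‖f y‖ + t * ‖g y‖) ^ 2) =
          fun y => (t * t) * ‖g y‖ ^ 2 + (2 * t) * (‖f y‖ * ‖g y‖) + ‖f y‖ ^ 2 := by
        funext y; ring
      have i1 : Integrable (fun y => (t * t) * ‖g y‖ ^ 2) μ := hb.const_mul _
      have i2 : Integrable (fun y => (2 * t) * (‖f y‖ * ‖g y‖)) μ := hab.const_mul _
      have i3 : Integrable (fun y => (t * t) * ‖g y‖ ^ 2 + (2 * t) * (‖f y‖ * ‖g y‖)) μ :=
        i1.add i2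
      rw [h2, integral_add i3 ha, integral_add i1 i2, integral_const_mul, integral_const_mul]
      ring
    rw [← h1]
    exact integral_nonneg fun y => sq_nonneg _
  have h3 := discrim_le_zero h
  unfold discrim at h3
  rw [← n2_sq hf, ← n2_sq hg] at h3
  have h4 : (∫ w, ‖f w‖ * ‖g w‖ ∂μ) ^ 2 ≤ (n2 μ f * n2 μ g) ^ 2 := by nlinarith
  exact (le_abs_self _).trans (abs_le_of_sq_le_sq h4 (mul_nonneg (n2_nonneg _) (n2_nonneg _)))

end norms

/-- `dz` of a function of the imaginary part -/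
theorem dz_im {ψ : ℝ → ℝ} (hψ : ContDiff ℝ ∞ ψ) (k : ℝ) (w : ℂ) :
    dz (fun w => (Real.exp (k * ψ w.im) : ℂ)) w =
      -(Complex.I * ((k / 2 * deriv ψ w.im * Real.exp (k * ψ w.im) : ℝ) : ℂ)) := by
  have hd : DifferentiableAt ℝ ψ w.im := (hψ.differentiable (by simp)).differentiableAt
  have h1 : HasFDerivAt (fun w : ℂ => w.im) Complex.imCLM w := Complex.imCLM.hasFDerivAt
  have h2 : HasFDerivAt (fun w : ℂ => ψ w.im) (deriv ψ w.im • Complex.imCLM) w :=
    hd.hasDerivAt.comp_hasFDerivAt w h1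
  have h3 : HasFDerivAt (fun w : ℂ => Real.exp (k * ψ w.im))
      (Real.exp (k * ψ w.im) • (k • (deriv ψ w.im • Complex.imCLM))) w :=
    (h2.const_mul k).exp
  have h4 : HasFDerivAt (fun w : ℂ => (Real.exp (k * ψ w.im) : ℂ))
      (Complex.ofRealCLM.comp (Real.exp (k * ψ w.im) • (k • (deriv ψ w.im • Complex.imCLM)))) w :=
    Complex.ofRealCLM.hasFDerivAt.comp w h3
  unfold dz dS dT
  rw [h4.fderiv]
  simp only [ContinuousLinearMap.comp_apply, smul_apply, Complex.imCLM_apply,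
    Complex.one_im, Complex.I_im, smul_eq_mul, mul_zero, mul_one, Complex.ofRealCLM_apply,
    Complex.ofReal_zero, zero_sub]
  push_cast
  ring

theorem cd_im {ψ : ℝ → ℝ} (hψ : ContDiff ℝ ∞ ψ) (k : ℝ) :
    ContDiff ℝ ∞ (fun w : ℂ => (Real.exp (k * ψ w.im) : ℂ)) := by
  have h1 : ContDiff ℝ ∞ (fun w : ℂ => w.im) := Complex.imCLM.contDiff
  exact Complex.ofRealCLM.contDiff.comp (Real.contDiff_exp.comp (contDiff_const.mul (hψ.comp h1)))

/-- (H) on the domain -/
theorem H_dom {a : ℝ} {Φ : ℂ → ℝ} {ψ : ℝ → ℝ} {B : ℝ} (hψc : Continuous (deriv ψ))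
    (hB : ∀ t, |deriv ψ t| ≤ B)
    (htest : ∀ φ, IsTest a φ → InDom a Φ φ (Dop Φ φ)) (hH : HypH a Φ ψ) {z y : ℂ → ℂ}
    (h : InDom a Φ z y) :
    n2 (muS a) (fun w => ((deriv ψ w.im : ℝ) : ℂ) * z w) ≤ 1 / 4 * n2 (muS a) y := by
  have hB0 : 0 ≤ B := (abs_nonneg _).trans (hB 0)
  obtain ⟨φ, hφ, hz, hy⟩ := h.approx
  have mul_mem : ∀ f : ℂ → ℂ, MemLp f 2 (muS a) → MemLp (fun w => ((deriv ψ w.im : ℝ) : ℂ) * f w) 2 (muS a) := by
    intro f hf
    refine MemLp.of_le_mul (c := B) hf ?_ (Eventually.of_forall fun w => ?_)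
    · have : Continuous (fun w : ℂ => ((deriv ψ w.im : ℝ) : ℂ)) :=
        Complex.continuous_ofReal.comp (hψc.comp Complex.continuous_im)
      exact this.aestronglyMeasurable.mul hf.1
    · rw [norm_mul, Complex.norm_real, Real.norm_eq_abs]
      exact mul_le_mul_of_nonneg_right (hB _) (norm_nonneg _)
  -- test functions
  have hT : ∀ n, n2 (muS a) (fun w => ((deriv ψ w.im : ℝ) : ℂ) * φ n w) ≤
      1 / 4 * n2 (muS a) (Dop Φ (φ n)) := by
    intro n
    have hd := htest _ (hφ n)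
    have h1 := hH _ (hφ n)
    have m1 := mul_mem _ hd.memz
    have e1 : (∫ w in strip a, (deriv ψ w.im) ^ 2 * ‖φ n w‖ ^ 2) =
        n2 (muS a) (fun w => ((deriv ψ w.im : ℝ) : ℂ) * φ n w) ^ 2 := by
      rw [n2_sq m1]
      congr 1; funext w
      rw [norm_mul, Complex.norm_real, Real.norm_eq_abs, mul_pow, sq_abs]
    rw [e1, ← n2_sq hd.memy] at h1
    have h2 : n2 (muS a) (fun w => ((deriv ψ w.im : ℝ) : ℂ) * φ n w) ^ 2 ≤
        (1 / 4 * n2 (muS a) (Dop Φ (φ n))) ^ 2 := by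
      refine h1.trans (le_of_eq ?_); ring
    exact (le_abs_self _).trans (abs_le_of_sq_le_sq h2 (mul_nonneg (by norm_num) (n2_nonneg _)))
  have hb : ∀ n, n2 (muS a) (fun w => ((deriv ψ w.im : ℝ) : ℂ) * z w) ≤
      B * n2 (muS a) (fun w => φ n w - z w) + 1 / 4 * (n2 (muS a) y +
        n2 (muS a) (fun w => Dop Φ (φ n) w - y w)) := by
    intro n
    have hd := htest _ (hφ n)
    have md : MemLp (fun w => φ n w - z w) 2 (muS a) := hd.memz.sub h.memz
    have md' : MemLp (fun w => Dop Φ (φ n) w - y w) 2 (muS a) := hd.memy.sub h.memy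
    have e1 : n2 (muS a) (fun w => ((deriv ψ w.im : ℝ) : ℂ) * z w) =
        n2 (muS a) (fun w => ((deriv ψ w.im : ℝ) : ℂ) * φ n w - ((deriv ψ w.im : ℝ) : ℂ) * (φ n w - z w)) := by
      congr 1; funext w; ring
    have e2 : n2 (muS a) (Dop Φ (φ n)) = n2 (muS a) (fun w => y w + (Dop Φ (φ n) w - y w)) := by
      congr 1; funext w; ring
    rw [e1]
    refine (n2_sub (mul_mem _ hd.memz) (mul_mem _ md)).trans ?_
    have t1 := hT n
    have t2 : n2 (muS a) (Dop Φ (φ n)) ≤ n2 (muS a) y + n2 (muS a) (fun w => Dop Φ (φ n) w - y w) := by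
      rw [e2]; exact n2_add h.memy md'
    have t3 : n2 (muS a) (fun w => ((deriv ψ w.im : ℝ) : ℂ) * (φ n w - z w)) ≤
        B * n2 (muS a) (fun w => φ n w - z w) := by
      refine n2_le hB0 md fun w => ?_
      rw [norm_mul, Complex.norm_real, Real.norm_eq_abs]
      exact mul_le_mul_of_nonneg_right (hB _) (norm_nonneg _)
    linarith
  have l1 : Tendsto (fun n => n2 (muS a) (fun w => φ n w - z w)) atTop (𝓝 0) := by
    have := (ENNReal.tendsto_toReal ENNReal.zero_ne_top).comp hz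
    rw [ENNReal.toReal_zero] at this
    exact this
  have l2 : Tendsto (fun n => n2 (muS a) (fun w => Dop Φ (φ n) w - y w)) atTop (𝓝 0) := by
    have := (ENNReal.tendsto_toReal ENNReal.zero_ne_top).comp hy
    rw [ENNReal.toReal_zero] at this
    exact this
  have l3 : Tendsto (fun n => B * n2 (muS a) (fun w => φ n w - z w) + 1 / 4 * (n2 (muS a) y +
        n2 (muS a) (fun w => Dop Φ (φ n) w - y w))) atTop (𝓝 (B * 0 + 1 / 4 * (n2 (muS a) y + 0))) :=
    (l1.const_mul B).add ((tendsto_const_nhds.add l2).const_mul _)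
  have := ge_of_tendsto' l3 hb
  simpa using this

theorem wb (hDOM : S_DOM) (hDOMB : S_DOMB) (hEQD : S_EQD) : S_WB := by
  intro a Φ ψ z y Xa Xb ha hΦ hlap hψ hψB hH hXa hXb hdom heq
  obtain ⟨B, hB⟩ := hψB
  obtain ⟨-, dmul, -, dtest⟩ := hDOM a Φ ha hΦ
  have hψc : Continuous ψ := hψ.continuous
  have hψ' : Continuous (deriv ψ) := hψ.continuous_deriv (by simp)
  have hB0 : 0 ≤ B := (abs_nonneg _).trans (hB 0).1
  -- multiplication by exponentials
  have hexp : ∀ k : ℝ, ∀ t, Real.exp (k * ψ t) ≤ Real.exp (|k| * B) := fun k t => by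
    refine Real.exp_le_exp.2 ((le_abs_self _).trans ?_)
    rw [abs_mul]
    exact mul_le_mul_of_nonneg_left (hB t).1 (abs_nonneg _)
  have bnd : ∀ k : ℝ, ∀ w : ℂ, ‖(Real.exp (k * ψ w.im) : ℂ)‖ ≤ (1 + |k| / 2 * B) * Real.exp (|k| * B) ∧
      ‖dz (fun w => (Real.exp (k * ψ w.im) : ℂ)) w‖ ≤ (1 + |k| / 2 * B) * Real.exp (|k| * B) := by
    intro k w
    have he := hexp k w.im
    have h0 := Real.exp_pos (k * ψ w.im)
    have h1 := Real.exp_pos (|k| * B)
    have h2 : 0 ≤ |k| / 2 * B := by positivity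
    constructor
    · rw [Complex.norm_real, Real.norm_eq_abs, abs_of_pos h0]
      nlinarith
    · rw [dz_im hψ, norm_neg, norm_mul, Complex.norm_I, one_mul, Complex.norm_real,
        Real.norm_eq_abs, abs_mul, abs_mul, abs_of_pos h0, abs_div, abs_of_pos (by norm_num : (0:ℝ) < 2)]
      have h3 : |k| / 2 * |deriv ψ w.im| ≤ |k| / 2 * B :=
        mul_le_mul_of_nonneg_left (hB _).2 (by positivity)
      calc |k| / 2 * |deriv ψ w.im| * Real.exp (k * ψ w.im)
          ≤ |k| / 2 * B * Real.exp (|k| * B) := mul_le_mul h3 he h0.le h2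
        _ ≤ (1 + |k| / 2 * B) * Real.exp (|k| * B) := by nlinarith
  have mulmem : ∀ (c : ℂ → ℂ) (C : ℝ) (f : ℂ → ℂ), Continuous c → (∀ w, ‖c w‖ ≤ C) →
      MemLp f 2 (muS a) → MemLp (fun w => c w * f w) 2 (muS a) := by
    intro c C f hc hC hf
    refine MemLp.of_le_mul (c := C) hf (hc.aestronglyMeasurable.mul hf.1)
      (Eventually.of_forall fun w => ?_)
    rw [norm_mul]
    exact mul_le_mul_of_nonneg_right (hC _) (norm_nonneg _)
  have cexp : ∀ k : ℝ, Continuous (fun w : ℂ => (Real.exp (k * ψ w.im) : ℂ)) := fun k =>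
    (cd_im hψ k).continuous
  have cder : Continuous (fun w : ℂ => ((deriv ψ w.im : ℝ) : ℂ)) :=
    Complex.continuous_ofReal.comp (hψ'.comp Complex.continuous_im)
  have bder : ∀ w : ℂ, ‖((deriv ψ w.im : ℝ) : ℂ)‖ ≤ B := fun w => by
    rw [Complex.norm_real, Real.norm_eq_abs]; exact (hB _).2
  -- the four functions
  set e : ℂ → ℂ := fun w => (Real.exp (1 * ψ w.im) : ℂ) with he
  set ey : ℂ → ℂ := fun w => e w * y w with hey
  set ez : ℂ → ℂ := fun w => e w * z w with hez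
  set pez : ℂ → ℂ := fun w => ((deriv ψ w.im : ℝ) : ℂ) * (e w * z w) with hpez
  set exa : ℂ → ℂ := fun w => e w * Xa w with hexa
  set exb : ℂ → ℂ := fun w => e w * Xb w with hexb
  have Mey : MemLp ey 2 (muS a) := mulmem _ _ _ (cexp 1) (fun w => (bnd 1 w).1) hdom.memy
  have Mez : MemLp ez 2 (muS a) := mulmem _ _ _ (cexp 1) (fun w => (bnd 1 w).1) hdom.memz
  have Mexa : MemLp exa 2 (muS a) := mulmem _ _ _ (cexp 1) (fun w => (bnd 1 w).1) hXa
  have Mexb : MemLp exb 2 (muS a) := mulmem _ _ _ (cexp 1) (fun w => (bnd 1 w).1) hXb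
  have Mpez : MemLp pez 2 (muS a) := mulmem _ _ _ cder bder Mez
  have een : ∀ w : ℂ, ‖e w‖ = Real.exp (ψ w.im) := fun w => by
    rw [he]; simp only [one_mul]
    rw [Complex.norm_real, Real.norm_eq_abs, abs_of_pos (Real.exp_pos _)]
  -- norms
  set P := n2 (muS a) ey with hP
  set E := n2 (muS a) pez with hE
  set Z := n2 (muS a) ez with hZ
  set a0 := n2 (muS a) exa with ha0
  set b0 := n2 (muS a) exb with hb0
  have P0 : 0 ≤ P := n2_nonneg _
  have E0 : 0 ≤ E := n2_nonneg _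
  have Z0 : 0 ≤ Z := n2_nonneg _
  have a00 : 0 ≤ a0 := n2_nonneg _
  have b00 : 0 ≤ b0 := n2_nonneg _
  -- first multiplication
  have D1 : InDom a Φ (fun w => e w * z w) (fun w => e w * y w - dz e w * z w) :=
    dmul e _ z y (cd_im hψ 1) (bnd 1) hdom
  have hnorm1 : n2 (muS a) (fun w => e w * y w - dz e w * z w) ≤ P + 1 / 2 * E := by
    have m2 : MemLp (fun w => dz e w * z w) 2 (muS a) := by
      have : MemLp (fun w => e w * y w - (e w * y w - dz e w * z w)) 2 (muS a) := Mey.sub D1.memy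
      refine (memLp_congr_ae (Eventually.of_forall fun w => ?_)).1 this
      ring
    refine (n2_sub Mey m2).trans (add_le_add le_rfl ?_)
    refine n2_le (by norm_num) Mpez fun w => ?_
    refine le_of_eq ?_
    rw [he, dz_im hψ]
    simp only [hpez, he, norm_mul, norm_neg, Complex.norm_I, one_mul, Complex.norm_real,
      Real.norm_eq_abs]
    rw [abs_of_pos (by norm_num : (0:ℝ) < 1 / 2)]
    ring
  have hE1 : E ≤ 1 / 4 * (P + 1 / 2 * E) := by
    have := H_dom hψ' (fun t => (hB t).2) dtest hH D1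
    exact this.trans (mul_le_mul_of_nonneg_left hnorm1 (by norm_num))
  have hZ1 : Z ≤ 4 * a * (P + 1 / 2 * E) := by
    have h1 := hDOMB a Φ ha hΦ hlap _ _ D1
    rw [← n2_sq Mez, ← n2_sq D1.memy] at h1
    have h2 : Z ^ 2 ≤ (4 * a * (P + 1 / 2 * E)) ^ 2 := by
      refine h1.trans ?_
      have h3 := pow_le_pow_left₀ (n2_nonneg _) hnorm1 2
      calc 16 * a ^ 2 * n2 (muS a) (fun w => e w * y w - dz e w * z w) ^ 2
          ≤ 16 * a ^ 2 * (P + 1 / 2 * E) ^ 2 := mul_le_mul_of_nonneg_left h3 (by positivity)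
        _ = (4 * a * (P + 1 / 2 * E)) ^ 2 := by ring
    exact (le_abs_self _).trans (abs_le_of_sq_le_sq h2 (by positivity))
  -- second multiplication
  set m : ℂ → ℂ := fun w => (Real.exp (2 * ψ w.im) : ℂ) with hm
  have hme : ∀ w, m w = e w * e w := fun w => by
    simp only [hm, he]
    rw [← Complex.ofReal_mul, ← Real.exp_add]; congr 2; ring
  have hdm : ∀ w, dz m w = -(Complex.I * (((deriv ψ w.im : ℝ) : ℂ) * (e w * e w))) := fun w => by
    rw [hm, dz_im hψ, ← hme w, hm]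
    push_cast; ring
  have ce : ∀ w, (starRingEnd ℂ) (e w) = e w := fun w => by
    simp only [he]; exact Complex.conj_ofReal _
  have D2 : InDom a Φ (fun w => m w * z w) (fun w => m w * y w - dz m w * z w) :=
    dmul m _ z y (cd_im hψ 2) (bnd 2) hdom
  have heq2 := hEQD a Φ y Xa Xb ha hΦ hdom.memy hXa hXb heq _ _ D2
  -- rewrite the three integrals
  have conj_mem : ∀ f : ℂ → ℂ, MemLp f 2 (muS a) → MemLp (fun w => (starRingEnd ℂ) (f w)) 2 (muS a) := by
    intro f hf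
    refine MemLp.of_le hf (Complex.continuous_conj.comp_aestronglyMeasurable hf.1)
      (Eventually.of_forall fun w => ?_)
    simp
  have imul : ∀ f g : ℂ → ℂ, MemLp f 2 (muS a) → MemLp g 2 (muS a) →
      Integrable (fun w => f w * (starRingEnd ℂ) (g w)) (muS a) := fun f g hf hg =>
    hf.integrable_mul (conj_mem g hg)
  have i1 := imul ey ey Mey Mey
  have i2 := imul ey pez Mey Mpez
  have i3 := imul exa ez Mexa Mez
  have i4 := imul exb ey Mexb Mey
  have i5 := imul exb pez Mexb Mpez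
  have s1 : ∫ w in strip a, y w * (starRingEnd ℂ) (m w * y w - dz m w * z w) =
      (∫ w in strip a, ey w * (starRingEnd ℂ) (ey w))
        - Complex.I * ∫ w in strip a, ey w * (starRingEnd ℂ) (pez w) := by
    rw [← integral_const_mul, ← integral_sub i1 (i2.const_mul _)]
    congr 1; funext w
    simp only [hey, hpez, hdm, hme, map_sub, map_mul, map_neg, ce, Complex.conj_I,
      Complex.conj_ofReal]
    ring
  have s2 : ∫ w in strip a, Xa w * (starRingEnd ℂ) (m w * z w) =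
      ∫ w in strip a, exa w * (starRingEnd ℂ) (ez w) := by
    congr 1; funext w
    simp only [hexa, hez, hme, map_mul, ce]
    ring
  have s3 : ∫ w in strip a, Xb w * (starRingEnd ℂ) (m w * y w - dz m w * z w) =
      (∫ w in strip a, exb w * (starRingEnd ℂ) (ey w))
        - Complex.I * ∫ w in strip a, exb w * (starRingEnd ℂ) (pez w) := by
    rw [← integral_const_mul, ← integral_sub i4 (i5.const_mul _)]
    congr 1; funext w
    simp only [hexb, hey, hpez, hdm, hme, map_sub, map_mul, map_neg, ce, Complex.conj_I,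
      Complex.conj_ofReal]
    ring
  rw [s1, s2, s3] at heq2
  have ncs : ∀ f g : ℂ → ℂ, MemLp f 2 (muS a) → MemLp g 2 (muS a) →
      ‖∫ w in strip a, f w * (starRingEnd ℂ) (g w)‖ ≤ n2 (muS a) f * n2 (muS a) g := by
    intro f g hf hg
    refine (norm_integral_le_integral_norm _).trans ?_
    refine (le_of_eq ?_).trans (n2_cs hf hg)
    congr 1; funext w
    rw [norm_mul, Complex.norm_conj]
  have sP : ∫ w in strip a, ey w * (starRingEnd ℂ) (ey w) = ((P ^ 2 : ℝ) : ℂ) := by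
    rw [hP, n2_sq Mey, ← integral_complex_ofReal]
    congr 1; funext w
    rw [Complex.mul_conj, Complex.normSq_eq_norm_sq]
  have hmain : P ^ 2 ≤ P * E + a0 * Z + (b0 * P + b0 * E) := by
    have h1 : ((P ^ 2 : ℝ) : ℂ) = Complex.I * (∫ w in strip a, ey w * (starRingEnd ℂ) (pez w)) +
        (∫ w in strip a, exa w * (starRingEnd ℂ) (ez w)) +
        ((∫ w in strip a, exb w * (starRingEnd ℂ) (ey w))
        - Complex.I * ∫ w in strip a, exb w * (starRingEnd ℂ) (pez w)) := by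
      rw [← sP]; linear_combination heq2
    have h2 := congrArg norm h1
    rw [Complex.norm_real, Real.norm_eq_abs, abs_of_nonneg (sq_nonneg P)] at h2
    rw [h2]
    refine (norm_add_le _ _).trans (add_le_add ((norm_add_le _ _).trans (add_le_add ?_ ?_))
      ((norm_sub_le _ _).trans (add_le_add ?_ ?_)))
    · rw [norm_mul, Complex.norm_I, one_mul]; exact ncs _ _ Mey Mpez
    · exact ncs _ _ Mexa Mez
    · exact ncs _ _ Mexb Mey
    · rw [norm_mul, Complex.norm_I, one_mul]; exact ncs _ _ Mexb Mpez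
  have hE2 : E ≤ 2 / 7 * P := by linarith
  have hZ2 : Z ≤ 5 * a * P := by
    have h1 : 4 * a * (P + 1 / 2 * E) ≤ 4 * a * (P + 1 / 2 * (2 / 7 * P)) :=
      mul_le_mul_of_nonneg_left (by linarith) (by positivity)
    have h2 : 4 * a * (P + 1 / 2 * (2 / 7 * P)) ≤ 5 * a * P := by
      have : 0 ≤ a * P := by positivity
      nlinarith
    exact hZ1.trans (h1.trans h2)
  have hP2 : P ≤ 7 * a * a0 + 2 * b0 := by
    rcases P0.eq_or_lt with h | h
    · rw [← h]; positivity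
    · have h1 : P * E ≤ P * (2 / 7 * P) := mul_le_mul_of_nonneg_left hE2 P0
      have h2 : a0 * Z ≤ a0 * (5 * a * P) := mul_le_mul_of_nonneg_left hZ2 a00
      have h3 : b0 * E ≤ b0 * (2 / 7 * P) := mul_le_mul_of_nonneg_left hE2 b00
      have h4 : P * (5 / 7 * P) ≤ P * (5 * a * a0 + 9 / 7 * b0) := by nlinarith
      have h5 : 5 / 7 * P ≤ 5 * a * a0 + 9 / 7 * b0 := le_of_mul_le_mul_left h4 h
      linarith
  -- translate
  have tr : ∀ f : ℂ → ℂ, eLpNorm (fun w => Real.exp (ψ w.im) • f w) 2 (muS a) =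
      eLpNorm (fun w => e w * f w) 2 (muS a) := by
    intro f
    refine eLpNorm_congr_norm_ae (Eventually.of_forall fun w => ?_)
    rw [norm_smul, norm_mul, een, Real.norm_eq_abs, abs_of_pos (Real.exp_pos _)]
  rw [tr, tr, tr, tr]
  have q1 : eLpNorm (fun w => e w * y w) 2 (muS a) = ENNReal.ofReal P := n2_of Mey
  have q2 : eLpNorm (fun w => e w * z w) 2 (muS a) = ENNReal.ofReal Z := n2_of Mez
  have q3 : eLpNorm (fun w => e w * Xa w) 2 (muS a) = ENNReal.ofReal a0 := n2_of Mexa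
  have q4 : eLpNorm (fun w => e w * Xb w) 2 (muS a) = ENNReal.ofReal b0 := n2_of Mexb
  rw [q1, q2, q3, q4]
  constructor
  · rw [← ENNReal.ofReal_mul (by positivity), show (2 : ENNReal) = ENNReal.ofReal 2 by simp,
      ← ENNReal.ofReal_mul (by norm_num), ← ENNReal.ofReal_add (by positivity) (by positivity)]
    exact ENNReal.ofReal_le_ofReal hP2
  · rw [← ENNReal.ofReal_mul (by positivity)]
    exact ENNReal.ofReal_le_ofReal hZ2

end Pool.Agent.Helper23.AB
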